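import Pool.Agent.helper2.BB.Spec

/-! # Project bb, module A1 -/

set_option autoImplicit false

namespace BB

open Metric MeasureTheory Set Filter Topology Asymptotics
open Pool.Agent.helper37.PR

theorem A1_cpow (z : ℂ) (r : ℝ) (hz : z ≠ 0) (h : |z.arg * r| < Real.pi / 2) :
    0 < (z ^ (r : ℂ)).re := by
  rw [Complex.cpow_def_of_ne_zero hz, Complex.exp_re]
  have h1 : (Complex.log z * (r : ℂ)).im = z.arg * r := by
    rw [Complex.im_mul_ofReal, Complex.log_im]
  rw [h1]
  refine mul_pos (Real.exp_pos _) ?_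
  rw [abs_lt] at h
  exact Real.cos_pos_of_mem_Ioo ⟨by linarith [h.1], h.2⟩

theorem A1_sq {a b : ℂ} (ha : 0 < a.re) (hb : 0 < b.re) (h : a ^ 2 = b ^ 2) : a = b := by
  rcases sq_eq_sq_iff_eq_or_eq_neg.1 h with h1 | h1
  · exact h1
  · rw [h1, Complex.neg_re] at ha
    linarith

theorem A1 : A1_stmt := by
  intro q w hq0 hq1 hw
  have hw1 : 1 - w ≠ 0 := by
    intro h
    have h1 : w = 1 := (sub_eq_zero.1 h).symm
    rw [h1, norm_one] at hw
    exact lt_irrefl _ hw
  have hw2 : 1 + w ≠ 0 := by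
    intro h
    have h1 : w = -1 := by linear_combination h
    rw [h1, norm_neg, norm_one] at hw
    exact lt_irrefl _ hw
  have hS : 0 < (Sg w).re := by
    unfold Sg
    rw [Complex.div_re]
    have h1 : 0 < Complex.normSq (1 - w) := Complex.normSq_pos.2 hw1
    have h2 : (1 + w).re * (1 - w).re / Complex.normSq (1 - w) +
        (1 + w).im * (1 - w).im / Complex.normSq (1 - w) =
        (1 - (w.re ^ 2 + w.im ^ 2)) / Complex.normSq (1 - w) := by
      simp only [Complex.add_re, Complex.one_re, Complex.sub_re, Complex.add_im, Complex.one_im,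
        Complex.sub_im]
      ring
    rw [h2]
    apply div_pos _ h1
    have h3 : w.re ^ 2 + w.im ^ 2 = ‖w‖ ^ 2 := by
      rw [← Complex.normSq_eq_norm_sq, Complex.normSq_apply]
      ring
    rw [h3]
    have h4 := norm_nonneg w
    nlinarith
  have hS0 : Sg w ≠ 0 := by
    intro h
    rw [h] at hS
    simp at hS
  have hargS : |(Sg w).arg| < Real.pi / 2 := Complex.abs_arg_lt_pi_div_two_iff.2 (Or.inl hS)
  have hRre : 0 < (Rf w).re := by
    have h1 := A1_cpow (Sg w) (1 / 2) hS0 (by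
      rw [abs_mul]
      have h2 : |(1 / 2 : ℝ)| = 1 / 2 := abs_of_pos (by norm_num)
      rw [h2]
      have h3 := abs_nonneg (Sg w).arg
      linarith)
    unfold Rf
    have h2 : ((1 / 2 : ℝ) : ℂ) = (1 / 2 : ℂ) := by push_cast; rfl
    rwa [h2] at h1
  have hR2 : Rf w ^ 2 = Sg w := by
    unfold Rf
    rw [← Complex.cpow_nat_mul]
    norm_num
  have hB : Bs q w ∈ Complex.slitPlane := by
    rw [Complex.mem_slitPlane_iff]
    unfold Bs
    have h1 : (Sg w ^ 2).re = (Sg w).re ^ 2 - (Sg w).im ^ 2 := by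
      rw [sq, Complex.mul_re]; ring
    have h2 : (Sg w ^ 2).im = 2 * (Sg w).re * (Sg w).im := by
      rw [sq, Complex.mul_im]; ring
    by_cases h3 : (Sg w).im = 0
    · left
      rw [Complex.add_re, Complex.one_re, Complex.re_ofReal_mul, Complex.sub_re, Complex.one_re, h1, h3]
      have h4 : 0 < (Sg w).re ^ 2 := by positivity
      nlinarith
    · right
      rw [Complex.add_im, Complex.one_im, Complex.im_ofReal_mul, Complex.sub_im, Complex.one_im, h2]
      have h4 : q * (2 * (Sg w).re * (Sg w).im) ≠ 0 :=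
        mul_ne_zero hq0.ne' (mul_ne_zero (mul_ne_zero two_ne_zero hS.ne') h3)
      simpa using h4
  have hB' := Complex.mem_slitPlane_iff_arg.1 hB
  have hargB : |(Bs q w).arg| < Real.pi := by
    rw [abs_lt]
    exact ⟨Complex.neg_pi_lt_arg _, lt_of_le_of_ne (Complex.arg_le_pi _) hB'.1⟩
  have hQre : 0 < (Qf q w).re := by
    have h1 := A1_cpow (Bs q w) (1 / 4) hB'.2 (by
      rw [abs_mul]
      have h2 : |(1 / 4 : ℝ)| = 1 / 4 := abs_of_pos (by norm_num)
      rw [h2]
      have h3 := abs_nonneg (Bs q w).arg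
      linarith)
    unfold Qf
    have h2 : ((1 / 4 : ℝ) : ℂ) = (1 / 4 : ℂ) := by push_cast; rfl
    rwa [h2] at h1
  have hQ2re : 0 < (Qf q w ^ 2).re := by
    have h1 := A1_cpow (Bs q w) (1 / 2) hB'.2 (by
      rw [abs_mul]
      have h2 : |(1 / 2 : ℝ)| = 1 / 2 := abs_of_pos (by norm_num)
      rw [h2]
      linarith)
    have h2 : ((1 / 2 : ℝ) : ℂ) = ((2 : ℕ) : ℂ) * (1 / 4 : ℂ) := by push_cast; norm_num
    rw [h2, Complex.cpow_nat_mul] at h1
    exact h1
  have hQ4 : ∀ q', Qf q' w ^ 4 = Bs q' w := by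
    intro q'
    unfold Qf
    rw [← Complex.cpow_nat_mul]
    norm_num
  refine ⟨hS, hRre, hR2, hB, hQre, hQ2re, hQ4 q, ?_, hw1, hw2⟩
  have hB1 : Bs 1 w = Sg w ^ 2 := by
    unfold Bs
    push_cast
    ring
  unfold Qf Rf
  rw [hB1]
  have h1 : (Sg w ^ 2) ^ (1 / 4 : ℂ) = Sg w ^ (1 / 2 : ℂ) := by
    have h2 : Complex.log (Sg w ^ 2) = ((2 : ℕ) : ℂ) * Complex.log (Sg w) := by
      rw [abs_lt] at hargS
      have h3 : Sg w ^ 2 = Complex.exp (((2 : ℕ) : ℂ) * Complex.log (Sg w)) := by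
        rw [Complex.exp_nat_mul, Complex.exp_log hS0]
      have h4 : (((2 : ℕ) : ℂ) * Complex.log (Sg w)).im = 2 * (Sg w).arg := by
        rw [← Complex.log_im]
        simp
      rw [h3]
      apply Complex.log_exp
      · rw [h4]
        linarith [hargS.1]
      · rw [h4]
        linarith [hargS.2]
    rw [Complex.cpow_def_of_ne_zero (pow_ne_zero 2 hS0), Complex.cpow_def_of_ne_zero hS0, h2]
    congr 1
    push_cast
    ring
  exact h1

end BB
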